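import Pool.Agent.Helper70.QA.Rep

/-!
# Project AUT (S00834), block A: the decoder for representations

A linear map `A.P → B.P` commuting with `dec 1` and `dec 2` is `f.diag` for a homomorphism `f`
of representations without the arrow `al`.
-/

set_option autoImplicit false

namespace QA70

open Helper10.QA

variable {A B : QRep}

/-- the decoder: first form -/
theorem decode_op (φ : A.P →ₗ[k] B.P) (h1 : ∀ x, φ (A.dec 1 x) = B.dec 1 (φ x))
    (h2 : ∀ x, φ (A.dec 2 x) = B.dec 2 (φ x)) :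
    ∃ φ0 : A.tot →ₗ[k] B.tot, φ = FM.pmap φ0 ∧ ∀ (o : Op) (u : A.tot), φ0 (A.op o u) =
      B.op o (φ0 u) := by
  obtain ⟨φ0, e1, e2⟩ := decode (k := k) (N := 83) (fun i => A.op (opEquiv i))
    (fun i => B.op (opEquiv i))
    (φ : (Fin (83 + 2) → A.tot) →ₗ[k] (Fin (83 + 2) → B.tot)) h1 h2
  refine ⟨φ0, ?_, fun o u => ?_⟩
  · apply LinearMap.ext
    intro x
    apply FM.pow_ext
    intro i
    exact e1 x i
  · have := e2 (opEquiv.symm o) u
    rw [Equiv.apply_symm_apply] at this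
    exact this

/-- the decoder for representations with `al = 0` -/
theorem decode_rep (hA : A.al = 0) (hB : B.al = 0) (φ : A.P →ₗ[k] B.P)
    (h1 : ∀ x, φ (A.dec 1 x) = B.dec 1 (φ x)) (h2 : ∀ x, φ (A.dec 2 x) = B.dec 2 (φ x)) :
    ∃ f : QHom A B, φ = f.diag := by
  obtain ⟨φ0, e, hop⟩ := decode_op φ h1 h2
  have g0 : ∀ x, φ0 (A.in0 x) = B.in0 (B.pr0 (φ0 (A.in0 x))) := fun x => hop (.e 0) (A.in0 x)
  have g1 : ∀ x, φ0 (A.in1 x) = B.in1 (B.pr1 (φ0 (A.in1 x))) := fun x => hop (.e 1) (A.in1 x)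
  have g2 : ∀ x, φ0 (A.in2 x) = B.in2 (B.pr2 (φ0 (A.in2 x))) := fun x => hop (.e 2) (A.in2 x)
  have g3 : ∀ x, φ0 (A.in3 x) = B.in3 (B.pr3 (φ0 (A.in3 x))) := fun x => hop (.e 3) (A.in3 x)
  have g4 : ∀ x, φ0 (A.in4 x) = B.in4 (B.pr4 (φ0 (A.in4 x))) := fun x => hop (.e 4) (A.in4 x)
  let f : QHom A B :=
    { f0 := B.pr0 ∘ₗ φ0 ∘ₗ A.in0
      f1 := B.pr1 ∘ₗ φ0 ∘ₗ A.in1
      f2 := B.pr2 ∘ₗ φ0 ∘ₗ A.in2
      f3 := B.pr3 ∘ₗ φ0 ∘ₗ A.in3
      f4 := B.pr4 ∘ₗ φ0 ∘ₗ A.in4
      hb := fun l x => congrArg B.pr2 (hop (.b l) (A.in1 x))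
      hr := fun x => congrArg B.pr2 (hop .r (A.in4 x))
      hlam := fun x => congrArg B.pr0 (hop .lam (A.in1 x))
      hal := fun x => by
        rw [hA, hB]
        simp only [LinearMap.zero_apply, map_zero]
      ha := fun i j x => congrArg B.pr3 (hop (.a i j) (A.in1 x))
      hc := fun i j x => congrArg B.pr3 (hop (.c i j) (A.in2 x))
      hu := fun i x => congrArg B.pr3 (hop (.u i) (A.in4 x)) }
  refine ⟨f, ?_⟩
  have hf : φ0 = f.tot := by
    apply LinearMap.ext
    intro x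
    rw [← A.sum_in x]
    simp only [map_add]
    rw [g0, g1, g2, g3, g4]
    apply B.tot_ext
    · simp [f]
    · simp [f]
    · simp [f]
    · simp [f]
    · simp [f]
  rw [e, hf]
  rfl

/-- homomorphisms are compatible with the decoder operators -/
theorem diag_dec (hf : ∀ (f : QHom A B) (o : Op) (u : A.tot), f.tot (A.op o u) = B.op o (f.tot u))
    (f : QHom A B) (l : Fin 3) (x : A.P) : f.diag (A.dec l x) = B.dec l (f.diag x) := by
  fin_cases l
  · rfl
  · apply FM.pow_ext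
    intro i
    exact diag_dA (k := k) f.tot x i
  · apply FM.pow_ext
    intro i
    exact diag_dB (k := k) (fun i => A.op (opEquiv i)) (fun i => B.op (opEquiv i)) f.tot
      (fun i u => hf f _ u) x i

/-- homomorphisms commute with the operators -/
theorem tot_op (f : QHom A B) (o : Op) (u : A.tot) : f.tot (A.op o u) = B.op o (f.tot u) := by
  obtain ⟨x0, x1, x2, x3, x4, rfl⟩ := A.tmk_cases u
  cases o with
  | e v =>
    unfold QRep.op
    fin_cases v <;> simp
  | b l => simp [QRep.op, f.hb]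
  | r => simp [QRep.op, f.hr]
  | lam => simp [QRep.op, f.hlam]
  | a i j => simp [QRep.op, f.ha]
  | c i j => simp [QRep.op, f.hc]
  | u i => simp [QRep.op, f.hu]

/-- homomorphisms are compatible with the decoder operators -/
theorem diag_dec' (f : QHom A B) (l : Fin 3) (x : A.P) :
    f.diag (A.dec l x) = B.dec l (f.diag x) := diag_dec tot_op f l x

end QA70
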