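import Mathlib

/-!
The decoder (A1): on `U^N`, `A` is the shift and `B x = s (x 0) + (last entry of x placed at 0)`.
A linear map `U^N → U'^N` commuting with `A` and `B` is `diag φ0` and `φ0` commutes with all `s i`.
-/

set_option autoImplicit false

namespace Helper10.QA

variable {k : Type*} [Ring k] {U U' : Type*} [AddCommGroup U] [Module k U] [AddCommGroup U']
  [Module k U'] {N : ℕ}

/-- the shift `e_i ↦ e_(i+1)` on `U^(N+2)` -/
def dA (N : ℕ) (U : Type*) [AddCommGroup U] [Module k U] :
    (Fin (N + 2) → U) →ₗ[k] (Fin (N + 2) → U) where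
  toFun x := Fin.cons 0 (fun i : Fin (N + 1) => x i.castSucc)
  map_add' x y := by
    funext i
    refine Fin.cases ?_ (fun j => ?_) i
    · simp
    · simp
  map_smul' c x := by
    funext i
    refine Fin.cases ?_ (fun j => ?_) i
    · simp
    · simp

/-- `B x = s (x 0) + (last entry of x placed at 0)` -/
def dB (s : Fin (N + 2) → (U →ₗ[k] U)) : (Fin (N + 2) → U) →ₗ[k] (Fin (N + 2) → U) where
  toFun x := fun i => s i (x 0) + if i = 0 then x (Fin.last (N + 1)) else 0
  map_add' x y := by
    funext i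
    by_cases hi : i = 0
    · simp only [Pi.add_apply, map_add, hi, if_true]
      abel
    · simp only [Pi.add_apply, map_add, hi, if_false]
      abel
  map_smul' c x := by
    funext i
    by_cases hi : i = 0
    · simp only [Pi.smul_apply, map_smul, hi, if_true, RingHom.id_apply, smul_add]
    · simp only [Pi.smul_apply, map_smul, hi, if_false, RingHom.id_apply, smul_add, smul_zero]

@[simp] theorem dA_zero (x : Fin (N + 2) → U) : dA (k := k) N U x 0 = 0 := rfl

@[simp] theorem dA_succ (x : Fin (N + 2) → U) (i : Fin (N + 1)) :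
    dA (k := k) N U x i.succ = x i.castSucc := rfl

theorem dB_apply (s : Fin (N + 2) → (U →ₗ[k] U)) (x : Fin (N + 2) → U) (i : Fin (N + 2)) :
    dB s x i = s i (x 0) + if i = 0 then x (Fin.last (N + 1)) else 0 := rfl

/-- `A e_i = e_(i+1)` -/
theorem dA_single (i : Fin (N + 1)) (u : U) :
    dA (k := k) N U (Pi.single i.castSucc u) = Pi.single i.succ u := by
  funext j
  refine Fin.cases ?_ (fun j => ?_) j
  · rw [dA_zero, Pi.single_eq_of_ne (Fin.succ_ne_zero i).symm]
  · rw [dA_succ]
    by_cases h : j = i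
    · subst h
      rw [Pi.single_eq_same, Pi.single_eq_same]
    · rw [Pi.single_eq_of_ne (fun h' => h (Fin.castSucc_injective _ h')),
        Pi.single_eq_of_ne (fun h' => h (Fin.succ_injective _ h'))]

theorem dA_pow_single (m : ℕ) (hm : m < N + 2) (u : U) :
    ((dA (k := k) N U) ^ m) (Pi.single 0 u) = Pi.single ⟨m, hm⟩ u := by
  induction m with
  | zero => rfl
  | succ m ih =>
    rw [pow_succ', Module.End.mul_apply, ih (by omega)]
    exact dA_single ⟨m, by omega⟩ u

theorem dA_pow_apply (m : ℕ) (x : Fin (N + 2) → U) (j : Fin (N + 2)) :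
    ((dA (k := k) N U) ^ m) x j = if h : m ≤ j.1 then x ⟨j.1 - m, by omega⟩ else 0 := by
  induction m generalizing j with
  | zero =>
    rw [dif_pos (Nat.zero_le _)]
    rfl
  | succ m ih =>
    rw [pow_succ', Module.End.mul_apply]
    refine Fin.cases ?_ (fun j => ?_) j
    · rw [dA_zero, dif_neg]
      simp
    · rw [dA_succ, ih]
      by_cases h : m ≤ j.1
      · rw [dif_pos (by simpa using h), dif_pos (by simpa using h)]
        congr 1
        apply Fin.ext
        simp
      · rw [dif_neg (by simpa using h), dif_neg (by simpa using h)]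

/-- `B A^(N+1) = E_00` -/
theorem dB_dA_pow (s : Fin (N + 2) → (U →ₗ[k] U)) (x : Fin (N + 2) → U) :
    dB s (((dA (k := k) N U) ^ (N + 1)) x) = Pi.single 0 (x 0) := by
  funext i
  rw [dB_apply, dA_pow_apply, dA_pow_apply, dif_neg (by simp), map_zero, zero_add]
  by_cases h : i = 0
  · subst h
    rw [if_pos rfl, Pi.single_eq_same, dif_pos (by simp)]
    congr 1
    apply Fin.ext
    simp
  · rw [if_neg h, Pi.single_eq_of_ne h]

theorem dB_single_zero (s : Fin (N + 2) → (U →ₗ[k] U)) (u : U) (i : Fin (N + 2)) :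
    dB s (Pi.single 0 u) i = s i u := by
  rw [dB_apply, Pi.single_eq_same]
  by_cases h : i = 0
  · rw [if_pos h, Pi.single_eq_of_ne (by simp [Fin.ext_iff]), add_zero]
  · rw [if_neg h, add_zero]

/-- maps commuting with the shift and `B` are diagonal and commute with all the `s i` -/
theorem decode (s : Fin (N + 2) → (U →ₗ[k] U)) (s' : Fin (N + 2) → (U' →ₗ[k] U'))
    (φ : (Fin (N + 2) → U) →ₗ[k] (Fin (N + 2) → U'))
    (hA : ∀ x, φ (dA (k := k) N U x) = dA (k := k) N U' (φ x))
    (hB : ∀ x, φ (dB s x) = dB s' (φ x)) :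
    ∃ φ0 : U →ₗ[k] U', (∀ x i, φ x i = φ0 (x i)) ∧ ∀ i u, φ0 (s i u) = s' i (φ0 u) := by
  have hpow : ∀ m x, φ (((dA (k := k) N U) ^ m) x) = ((dA (k := k) N U') ^ m) (φ x) := by
    intro m
    induction m with
    | zero => intro x; rfl
    | succ m ih =>
      intro x
      rw [pow_succ', pow_succ', Module.End.mul_apply, Module.End.mul_apply, hA, ih]
  let φ0 : U →ₗ[k] U' := (LinearMap.proj 0).comp (φ.comp (LinearMap.single k _ 0))
  have h0 : ∀ x, φ (Pi.single 0 (x 0)) = Pi.single 0 (φ x 0) := by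
    intro x
    rw [← dB_dA_pow s x, hB, hpow, dB_dA_pow]
  have h1 : ∀ u, φ (Pi.single 0 u) = Pi.single 0 (φ0 u) := by
    intro u
    have h2 := h0 (Pi.single 0 u)
    rw [Pi.single_eq_same] at h2
    exact h2
  have h3 : ∀ (i : Fin (N + 2)) u, φ (Pi.single i u) = Pi.single i (φ0 u) := by
    intro i u
    have h4 := dA_pow_single (k := k) i.1 i.2 u
    have h5 := dA_pow_single (k := k) (U := U') i.1 i.2 (φ0 u)
    rw [Fin.eta] at h4 h5
    rw [← h4, hpow, h1, h5]
  have h4 : ∀ x i, φ x i = φ0 (x i) := by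
    intro x i
    have h5 : x = ∑ j, Pi.single j (x j) := (Finset.univ_sum_single x).symm
    conv_lhs => rw [h5]
    rw [map_sum, Finset.sum_apply]
    simp only [h3]
    rw [Finset.sum_eq_single i]
    · rw [Pi.single_eq_same]
    · intro j _ hj
      exact Pi.single_eq_of_ne (Ne.symm hj) _
    · intro h
      exact absurd (Finset.mem_univ i) h
  refine ⟨φ0, h4, fun i u => ?_⟩
  have h5 := congrFun (hB (Pi.single 0 u)) i
  rw [h1, h4, dB_single_zero, dB_single_zero] at h5
  exact h5

/-- diagonal maps commute with the shift -/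
theorem diag_dA (φ0 : U →ₗ[k] U') (x : Fin (N + 2) → U) (i : Fin (N + 2)) :
    φ0 (dA (k := k) N U x i) = dA (k := k) N U' (fun j => φ0 (x j)) i := by
  refine Fin.cases ?_ (fun j => ?_) i
  · rw [dA_zero, dA_zero, map_zero]
  · rw [dA_succ, dA_succ]

/-- diagonal maps commuting with the `s i` commute with `B` -/
theorem diag_dB (s : Fin (N + 2) → (U →ₗ[k] U)) (s' : Fin (N + 2) → (U' →ₗ[k] U'))
    (φ0 : U →ₗ[k] U') (h : ∀ i u, φ0 (s i u) = s' i (φ0 u)) (x : Fin (N + 2) → U)
    (i : Fin (N + 2)) : φ0 (dB s x i) = dB s' (fun j => φ0 (x j)) i := by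
  rw [dB_apply, dB_apply, map_add, h]
  by_cases hi : i = 0
  · rw [if_pos hi, if_pos hi]
  · rw [if_neg hi, if_neg hi, map_zero]

end Helper10.QA
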