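import Pool.Agent.Helper10.QA.Decoder

/-!
The decoder for additive groups: the same statements as in `Decoder.lean` for additive maps.
-/

set_option autoImplicit false

namespace Helper10.QA

variable {U U' : Type*} [AddCommGroup U] [AddCommGroup U'] {N : ℕ}

/-- the shift `e_i ↦ e_(i+1)` on `U^(N+2)` -/
def aA (N : ℕ) (U : Type*) [AddCommGroup U] : (Fin (N + 2) → U) →+ (Fin (N + 2) → U) :=
  (dA (k := ℤ) N U).toAddMonoidHom

/-- `B x = s (x 0) + (last entry of x placed at 0)` -/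
def aB (s : Fin (N + 2) → (U →+ U)) : (Fin (N + 2) → U) →+ (Fin (N + 2) → U) :=
  (dB (k := ℤ) (fun i => (s i).toIntLinearMap)).toAddMonoidHom

@[simp] theorem aA_zero (x : Fin (N + 2) → U) : aA N U x 0 = 0 := rfl

@[simp] theorem aA_succ (x : Fin (N + 2) → U) (i : Fin (N + 1)) :
    aA N U x i.succ = x i.castSucc := rfl

theorem aB_apply (s : Fin (N + 2) → (U →+ U)) (x : Fin (N + 2) → U) (i : Fin (N + 2)) :
    aB s x i = s i (x 0) + if i = 0 then x (Fin.last (N + 1)) else 0 := rfl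

/-- additive maps commuting with the shift and `B` are diagonal and commute with all the `s i` -/
theorem decode_add (s : Fin (N + 2) → (U →+ U)) (s' : Fin (N + 2) → (U' →+ U'))
    (φ : (Fin (N + 2) → U) →+ (Fin (N + 2) → U'))
    (hA : ∀ x, φ (aA N U x) = aA N U' (φ x)) (hB : ∀ x, φ (aB s x) = aB s' (φ x)) :
    ∃ φ0 : U →+ U', (∀ x i, φ x i = φ0 (x i)) ∧ ∀ i u, φ0 (s i u) = s' i (φ0 u) := by
  obtain ⟨ψ, h1, h2⟩ := decode (k := ℤ) (fun i => (s i).toIntLinearMap)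
    (fun i => (s' i).toIntLinearMap) φ.toIntLinearMap hA hB
  exact ⟨ψ.toAddMonoidHom, h1, h2⟩

theorem diag_aA (φ0 : U →+ U') (x : Fin (N + 2) → U) (i : Fin (N + 2)) :
    φ0 (aA N U x i) = aA N U' (fun j => φ0 (x j)) i :=
  diag_dA (k := ℤ) φ0.toIntLinearMap x i

theorem diag_aB (s : Fin (N + 2) → (U →+ U)) (s' : Fin (N + 2) → (U' →+ U')) (φ0 : U →+ U')
    (h : ∀ i u, φ0 (s i u) = s' i (φ0 u)) (x : Fin (N + 2) → U) (i : Fin (N + 2)) :
    φ0 (aB s x i) = aB s' (fun j => φ0 (x j)) i :=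
  diag_dB (k := ℤ) (fun i => (s i).toIntLinearMap) (fun i => (s' i).toIntLinearMap)
    φ0.toIntLinearMap h x i

end Helper10.QA
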